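import Pool.Agent.W500.CS.Stm2

/-!
# CQ-AEAM: null sets of the plane in twisted polar coordinates
-/

set_option autoImplicit false

open MeasureTheory Metric Set Filter Topology

namespace Pool.Agent.W103.CQ.AEAM

open Pool.Agent.W500.CS

/-- polar coordinates -/
noncomputable def P (r α : ℝ) : ℂ := (r : ℂ) * Complex.exp (Complex.I * (α : ℂ))

theorem P_cont : Continuous (fun p : ℝ × ℝ => P p.1 p.2) := by
  unfold P
  fun_prop

theorem Am_eq (θ x : ℝ) : Am θ x = P x (θ + x) := by
  unfold Am P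
  push_cast
  rfl

theorem P_per (r α : ℝ) (n : ℤ) : P r (α - n * (2 * Real.pi)) = P r α := by
  unfold P
  congr 1
  have h : Complex.I * ((α - n * (2 * Real.pi) : ℝ) : ℂ) =
      Complex.I * (α : ℂ) - n * (2 * Real.pi * Complex.I) := by
    push_cast
    ring
  rw [h]
  exact Complex.exp_periodic.sub_int_mul_eq n

theorem P_polar (p : ℝ × ℝ) : Complex.polarCoord.symm p = P p.1 p.2 := by
  rw [Complex.polarCoord_symm_apply]
  unfold P
  rw [mul_comm Complex.I, Complex.exp_mul_I]
  push_cast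
  rfl

theorem ae_target {N : Set ℂ} (hN : MeasurableSet N) (h0 : volume N = 0) :
    ∀ᵐ p : ℝ × ℝ, 0 < p.1 → p.2 ∈ Ioo (-Real.pi) Real.pi → P p.1 p.2 ∉ N := by
  have h1 := Complex.lintegral_comp_polarCoord_symm (N.indicator (fun _ => 1))
  rw [lintegral_indicator_const hN, h0, mul_zero] at h1
  have hm : Measurable (fun p : ℝ × ℝ => ENNReal.ofReal p.1 •
      N.indicator (fun _ => (1 : ENNReal)) (Complex.polarCoord.symm p)) := by
    have e : (fun p : ℝ × ℝ => ENNReal.ofReal p.1 •
      N.indicator (fun _ => (1 : ENNReal)) (Complex.polarCoord.symm p)) =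
      fun p : ℝ × ℝ => ENNReal.ofReal p.1 * N.indicator (fun _ => (1 : ENNReal)) (P p.1 p.2) := by
      funext p
      rw [P_polar, smul_eq_mul]
    rw [e]
    exact (ENNReal.measurable_ofReal.comp measurable_fst).mul
      ((measurable_const.indicator hN).comp P_cont.measurable)
  rw [lintegral_eq_zero_iff hm, EventuallyEq,
    ae_restrict_iff' polarCoord.open_target.measurableSet] at h1
  filter_upwards [h1] with p hp hp1 hp2 hpN
  have h2 := hp (by
    rw [polarCoord_target]
    exact ⟨hp1, hp2⟩)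
  rw [P_polar, indicator_of_mem hpN] at h2
  simp at h2
  linarith

theorem ae_all {N : Set ℂ} (hN : MeasurableSet N) (h0 : volume N = 0) :
    ∀ᵐ r : ℝ, 0 < r → ∀ᵐ α : ℝ, P r α ∉ N := by
  have h1 := ae_target hN h0
  rw [Measure.volume_eq_prod] at h1
  have h2 := Measure.ae_ae_of_ae_prod h1
  filter_upwards [h2] with r hr hr0
  have h3 : ∀ᵐ α : ℝ, α ∈ Ioc (-Real.pi) Real.pi → P r α ∉ N := by
    have h4 : ∀ᵐ α : ℝ, α ≠ Real.pi := by
      rw [ae_iff]
      simp
    filter_upwards [hr, h4] with α h5 h6 h7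
    exact h5 hr0 ⟨h7.1, lt_of_le_of_ne h7.2 h6⟩
  have h5 : ∀ n : ℤ, ∀ᵐ α : ℝ, α - n * (2 * Real.pi) ∈ Ioc (-Real.pi) Real.pi → P r α ∉ N := by
    intro n
    have h6 := (measurePreserving_sub_right (volume : Measure ℝ)
      (n * (2 * Real.pi))).quasiMeasurePreserving.ae h3
    filter_upwards [h6] with α h7 h8
    have h9 := h7 h8
    rwa [P_per] at h9
  filter_upwards [ae_all_iff.2 h5] with α hα
  have hp : (0 : ℝ) < 2 * Real.pi := by positivity
  refine hα (toIocDiv hp (-Real.pi) α) ?_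
  have h7 := sub_toIocDiv_zsmul_mem_Ioc hp (-Real.pi) α
  rw [zsmul_eq_mul] at h7
  have e : -Real.pi + 2 * Real.pi = Real.pi := by ring
  rwa [e] at h7

theorem main : S_AEAM := by
  intro p hp
  rw [ae_iff] at hp
  obtain ⟨N, hsub, hN, h0⟩ := exists_measurable_superset_of_null hp
  have h1 := ae_all hN h0
  have h2 : ∀ᵐ x : ℝ, ∀ᵐ θ : ℝ, 0 < x → Am θ x ∉ N := by
    filter_upwards [h1] with x hx
    by_cases h3 : 0 < x
    · have h4 := (measurePreserving_add_right (volume : Measure ℝ) x).quasiMeasurePreserving.ae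
        (hx h3)
      filter_upwards [h4] with θ h5 _
      rw [Am_eq]
      exact h5
    · exact Eventually.of_forall fun θ h4 => absurd h4 h3
  have hm : MeasurableSet {q : ℝ × ℝ | 0 < q.1 → Am q.2 q.1 ∉ N} := by
    have h3 : MeasurableSet {q : ℝ × ℝ | Am q.2 q.1 ∈ N} := by
      have hc : Continuous (fun q : ℝ × ℝ => Am q.2 q.1) := by
        unfold Am
        fun_prop
      exact hc.measurable hN
    have h4 : MeasurableSet {q : ℝ × ℝ | 0 < q.1} := measurableSet_lt measurable_const measurable_fst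
    exact h4.imp h3.compl
  rw [Measure.ae_ae_comm hm] at h2
  filter_upwards [h2] with θ hθ
  filter_upwards [hθ] with x hx h3
  by_contra hc
  exact hx h3 (hsub hc)

end Pool.Agent.W103.CQ.AEAM
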